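import Pool.Agent.H932.V.DirSub

/-!
# The level theorem: gaps and directions of the lines through a point
-/

open MvPolynomial H960VB H960VB.Bundle2 Y208PT

namespace H932V

variable {n : ℕ}

/-- scalar multiple of a section on a line -/
theorem LineSec.smul {E : Bundle2 n} {P Q : Fin (n + 1) → ℂ} {q : ℤ}
    {g : Fin E.a → MvPolynomial (Fin 2) ℂ} (hg : LineSec E P Q q g) (c : ℂ) :
    LineSec E P Q q (fun i => C c * g i) ∧ ∀ z, evv (fun i => C c * g i) z = c • evv g z := by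
  have h4 : ∀ z, evv (fun i => C c * g i) z = c • evv g z := by
    intro z
    ext i
    simp [evv]
  refine ⟨⟨fun i => ?_, fun z hz => ?_⟩, h4⟩
  · have h4 := L2.HomZ_mul (σ := Fin 2) (p := C c) (d := 0)
      (Or.inr ⟨0, rfl, isHomogeneous_C _ c⟩) (hg.1 i)
    exact L2.HomZ_cast h4 (by ring)
  · rw [h4]
    exact Submodule.smul_mem _ _ (hg.2 z hz)

/-- a nonzero section of `E|_L(-q)` where `q` is at least the larger number of the type, which is
not balanced: `L` has the type `q` and the section vanishes nowhere. -/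
theorem LineSec.extreme {E : Bundle2 n} {P Q : Fin (n + 1) → ℂ}
    (hPQ : LinearIndependent ℂ ![P, Q]) {q : ℤ} {g : Fin E.a → MvPolynomial (Fin 2) ℂ}
    (hg : LineSec E P Q q g) (hg0 : g ≠ 0) {a b : ℤ} (hab : E.SplitsOn P Q a b) (ha : a ≤ q)
    (hb : b < q) : a = q ∧ evv g ![1, 0] ≠ 0 := by
  obtain ⟨g₁, g₂, hg₁, hg₂, hl⟩ := hab
  obtain ⟨H₁, H₂, h1, h2, h3⟩ := hg.decomp hPQ (g₁ := g₁) (g₂ := g₂)
    ⟨hg₁, fun z hz => (hl z hz).1⟩ ⟨hg₂, fun z hz => (hl z hz).2.1⟩ (fun z hz => (hl z hz).2.2)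
  have h4 : H₂ = 0 := HomZ.eq_zero_of_neg h2 (by omega)
  have h5 : H₁ ≠ 0 := by
    rintro rfl
    apply hg0
    funext i
    rw [h3, h4]
    simp
  have h6 : a = q := by
    rcases h1 with h1 | ⟨k, hk, -⟩
    · exact absurd h1 h5
    · omega
  refine ⟨h6, fun h0 => ?_⟩
  subst h6
  rw [sub_self] at h1
  have hz10 : (![1, 0] : Fin 2 → ℂ) ≠ 0 := by
    intro h
    have := congrFun h 0
    simp at this
  have h7 : eval ![1, 0] H₁ ≠ 0 := by
    intro h8
    apply h5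
    apply MvPolynomial.funext
    intro x
    rw [HomZ.eval_const h1 x ![1, 0], h8, map_zero]
  have h9 : evv g ![1, 0] = eval ![1, 0] H₁ • evv g₁ ![1, 0] := by
    ext i
    simp [evv, h3, h4]
  rw [h9, smul_eq_zero] at h0
  rcases h0 with h0 | h0
  · exact h7 h0
  · exact (hl _ hz10).2.2.ne_zero 0 h0

/-- The line through `[P]` and `[Q]` has the level at least `k`: for its type `(a, b)`, `a ≥ b`,
either `a - b ≥ k + 1`, or `a - b = k` and the subbundle `O(a)` has the direction `ε` at `P`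
(if `k > 0`). -/
def Lv (E : Bundle2 n) (P Q : Fin (n + 1) → ℂ) (ε : Fin E.a → ℂ) (k : ℕ) : Prop :=
  ∃ a b : ℤ, E.SplitsOn P Q a b ∧ b ≤ a ∧ ((k : ℤ) + 1 ≤ a - b ∨ ((k : ℤ) = a - b ∧
    (k = 0 ∨ ∃ g : Fin E.a → MvPolynomial (Fin 2) ℂ, LineSec E P Q a g ∧ evv g ![1, 0] = ε)))

/-- **Step theorem.**  If infinitely many lines through `P` in `Λ` have the level at least `k`, then
some line has the level at least `k + 1`. -/
theorem step (E : Bundle2 n) (hE : ¬ E.Splits) (c₁ : ℤ)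
    (hc : ∀ A B : Fin (n + 1) → ℂ, LinearIndependent ℂ ![A, B] →
      ∀ a b : ℤ, E.SplitsOn A B a b → a + b = c₁)
    (P : Fin (n + 1) → ℂ) (hP : P ≠ 0) (ε : Fin E.a → ℂ) (hε : ε ∈ E.fib P) (hε0 : ε ≠ 0)
    (k : ℕ) (Λ : Submodule ℂ (Fin (n + 1) → ℂ)) (hPΛ : P ∈ Λ) (hΛ : 3 ≤ Module.finrank ℂ Λ)
    (Q : ℕ → Fin (n + 1) → ℂ)
    (hQ : ∀ i, Q i ∈ Λ ∧ LinearIndependent ℂ ![P, Q i] ∧ Lv E P (Q i) ε k)
    (hQi : ∀ i j, i ≠ j → LinearIndependent ℂ ![P, Q i, Q j]) :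
    ∃ Q ∈ Λ, LinearIndependent ℂ ![P, Q] ∧ Lv E P Q ε (k + 1) := by
  by_contra hcon
  push Not at hcon
  apply hE
  have hcon' : ∀ Q ∈ Λ, LinearIndependent ℂ ![P, Q] → ∀ a b : ℤ, E.SplitsOn P Q a b → b ≤ a →
      a - b ≤ (k : ℤ) + 1 ∧ (a - b = (k : ℤ) + 1 →
        ∀ g : Fin E.a → MvPolynomial (Fin 2) ℂ, LineSec E P Q a g → evv g ![1, 0] ≠ ε) := by
    intro Q hQ hPQ a b hab hba
    have h1 := hcon Q hQ hPQ
    constructor
    · by_contra h2
      exact h1 ⟨a, b, hab, hba, Or.inl (by push_cast; omega)⟩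
    · intro h2 g hg hge
      exact h1 ⟨a, b, hab, hba, Or.inr ⟨by push_cast; omega, Or.inr ⟨g, hg, hge⟩⟩⟩
  -- the two numbers of all types
  have hty : ∀ Q ∈ Λ, LinearIndependent ℂ ![P, Q] → ∀ a b : ℤ, E.SplitsOn P Q a b →
      a - b ≤ (k : ℤ) + 1 ∧ b - a ≤ (k : ℤ) + 1 := by
    intro Q hQ hPQ a b hab
    rcases le_total b a with h | h
    · have := (hcon' Q hQ hPQ a b hab h).1
      exact ⟨this, by omega⟩
    · have := (hcon' Q hQ hPQ b a (SplitsOn.swap hab) h).1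
      exact ⟨by omega, this⟩
  by_cases hpar : ∃ q : ℤ, 2 * q = c₁ + k
  · obtain ⟨q, hq⟩ := hpar
    have hmax : ∀ Q ∈ Λ, LinearIndependent ℂ ![P, Q] → ∀ a b : ℤ, E.SplitsOn P Q a b →
        a ≤ q ∧ b ≤ q := by
      intro Q hQ hPQ a b hab
      have h1 := hty Q hQ hPQ a b hab
      have h2 := hc P Q hPQ a b hab
      constructor <;> omega
    rcases Nat.eq_zero_or_pos k with hk0 | hk0
    · refine E.main_subspace Λ (by omega) P hPΛ hP fun Q hQ hPQ => ?_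
      obtain ⟨a, b, hab⟩ := Pool.Agent.H106R3.VB.splitsOn_exists E hPQ
      refine ⟨a, b, ?_, hab⟩
      have h1 := hmax Q hQ hPQ a b hab
      have h2 := hc P Q hPQ a b hab
      have h3 : a - b = 0 := by omega
      rw [h3, abs_zero]
      omega
    · have hex : ∀ i, ∃ g : Fin E.a → MvPolynomial (Fin 2) ℂ, LineSec E P (Q i) q g ∧
          evv g ![1, 0] = ε := by
        intro i
        obtain ⟨hQΛ, hPQ, a, b, hab, hba, h⟩ := hQ i
        have h2 := hc P _ hPQ a b hab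
        have h3 := hmax _ hQΛ hPQ a b hab
        rcases h with h | ⟨h, h | ⟨g, hg, hge⟩⟩
        · omega
        · omega
        · obtain rfl : a = q := by omega
          exact ⟨g, hg, hge⟩
      choose g hg hge using hex
      exact pt_subspace E Λ (by omega) P hPΛ hP q hmax Q (fun i => (hQ i).1) hQi g hg ε hε0 hge
  · obtain ⟨q, hq⟩ : ∃ q : ℤ, 2 * q = c₁ + k + 1 := by
      rcases Int.even_or_odd (c₁ + k) with ⟨t, ht⟩ | ⟨t, ht⟩
      · exact absurd ⟨t, by omega⟩ hpar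
      · exact ⟨t + 1, by omega⟩
    have hmax : ∀ Q ∈ Λ, LinearIndependent ℂ ![P, Q] → ∀ a b : ℤ, E.SplitsOn P Q a b →
        a ≤ q ∧ b ≤ q := by
      intro Q hQ hPQ a b hab
      have h1 := hty Q hQ hPQ a b hab
      have h2 := hc P Q hPQ a b hab
      constructor <;> omega
    refine pt_dir_subspace E Λ (by omega) P hPΛ hP q hmax Q (fun i => (hQ i).1) hQi ?_ ε hε hε0 ?_
    · intro i
      obtain ⟨hQΛ, hPQ, a, b, hab, hba, h⟩ := hQ i
      have h2 := hc P _ hPQ a b hab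
      have h3 := hmax _ hQΛ hPQ a b hab
      obtain rfl : a = q := by
        rcases h with h | ⟨h, -⟩
        · omega
        · exfalso
          exact hpar ⟨a, by omega⟩
      obtain ⟨g₁, g₂, hg₁, hg₂, hl⟩ := hab
      refine ⟨g₁, ?_, hg₁, fun z hz => (hl z hz).1⟩
      rintro rfl
      have hz10 : (![1, 0] : Fin 2 → ℂ) ≠ 0 := by
        intro h
        have := congrFun h 0
        simp at this
      apply (hl _ hz10).2.2.ne_zero 0
      ext i
      simp [evv]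
    · intro Q hQ hPQ g hg0 hg c hgc
      obtain ⟨a, b, hab, hba⟩ : ∃ a b : ℤ, E.SplitsOn P Q a b ∧ b ≤ a := by
        obtain ⟨a, b, hab⟩ := Pool.Agent.H106R3.VB.splitsOn_exists E hPQ
        rcases le_total b a with h | h
        · exact ⟨a, b, hab, h⟩
        · exact ⟨b, a, SplitsOn.swap hab, h⟩
      have h2 := hc P Q hPQ a b hab
      have h3 := hmax Q hQ hPQ a b hab
      obtain ⟨h4, h5⟩ := LineSec.extreme hPQ hg hg0 hab h3.1 (by omega)
      subst h4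
      have hc0 : c ≠ 0 := by
        rintro rfl
        rw [zero_smul] at hgc
        exact h5 hgc
      obtain ⟨h6, h7⟩ := LineSec.smul hg c⁻¹
      refine (hcon' Q hQ hPQ a b hab hba).2 (by omega) _ h6 ?_
      rw [h7, hgc, smul_smul, inv_mul_cancel₀ hc0, one_smul]

/-- **Level theorem.** -/
theorem level (E : Bundle2 n) (hE : ¬ E.Splits) (c₁ : ℤ)
    (hc : ∀ A B : Fin (n + 1) → ℂ, LinearIndependent ℂ ![A, B] →
      ∀ a b : ℤ, E.SplitsOn A B a b → a + b = c₁)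
    (P : Fin (n + 1) → ℂ) (hP : P ≠ 0) (ε : Fin E.a → ℂ) (hε : ε ∈ E.fib P) (hε0 : ε ≠ 0)
    (k₀ : ℕ) :
    ∀ m : ℕ, ∀ Λ : Submodule ℂ (Fin (n + 1) → ℂ), P ∈ Λ →
      Module.finrank ℂ Λ = m + 2 →
      (∀ Q ∈ Λ, LinearIndependent ℂ ![P, Q] → Lv E P Q ε k₀) →
      ∃ Q ∈ Λ, LinearIndependent ℂ ![P, Q] ∧ Lv E P Q ε (k₀ + m) := by
  intro m
  induction m with
  | zero =>
    intro Λ hPΛ hΛ hbase
    obtain ⟨Q, hQ, hPQ⟩ := exists_li_of_finrank (M := Λ) (by omega) hP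
    exact ⟨Q, hQ, hPQ, hbase Q hQ hPQ⟩
  | succ m ih =>
    intro Λ hPΛ hΛ hbase
    obtain ⟨Q, hQ, hQi⟩ := exists_lines Λ hPΛ hP (by omega) (fun Q => Lv E P Q ε (k₀ + m)) (by
      intro M hM hPM hMf
      exact ih M hPM (by omega) (fun Q hQ hPQ => hbase Q (hM hQ) hPQ))
    exact step E hE c₁ hc P hP ε hε hε0 (k₀ + m) Λ hPΛ (by omega) Q hQ hQi

end H932V
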