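import Pool.Agent.H932.V.GP
import Pool.Graph.R_pool_sql_team_seeded_1acbe0a2.Y208.PT.Lines

/-!
# Lines of maximal type through a point, whose directions omit a direction
-/

open MvPolynomial H960VB H960VB.Bundle2 Y208PT

namespace H932V

variable {n : ℕ}

/-- The family of the sections of maximal degree: infinitely many lines of maximal type, and the
directions of all the maximal subbundles avoid the kernel of the functional `μ`. -/
theorem family_dir (hn : 2 ≤ n) (E : Bundle2 n) (c₁ : ℤ)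
    (P : Fin E.a → Fin E.a → MvPolynomial (Fin (n + 1)) ℂ)
    (hP : ∀ i j, HomZ (P i j) (E.β i + E.β j - c₁))
    (hP0 : ∀ x : Fin (n + 1) → ℂ, x ≠ 0 → ∃ i j, eval x (P i j) ≠ 0)
    (hPw : ∀ x : Fin (n + 1) → ℂ, x ≠ 0 → ∀ u w : Fin E.a → ℂ,
        (evm E.B x).mulVec u = 0 → (evm E.B x).mulVec w = 0 →
        ∃ κ : ℂ, ∀ i j, u i * w j - u j * w i = κ * eval x (P i j))
    (q p : ℤ) (w : ℕ) (hw : (w : ℤ) = q - p) (hpq : p + q = c₁) (hw1 : 1 ≤ w)
    (h1 : ∀ v : Fin n → ℂ, v ≠ 0 → E.Hsec (-q - 1) v = ⊥)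
    (h2 : ∀ v : Fin n → ℂ, v ≠ 0 → Module.finrank ℂ (E.Hsec (-p - 1) v) = w)
    (v₀ : ℕ → Fin n → ℂ) (hv₀ : ∀ i j, i ≠ j → LinearIndependent ℂ ![v₀ i, v₀ j])
    (hf₀ : ∀ k, ∃ f ∈ E.Hsec (-q) (v₀ k), f ≠ 0) (μ : Fin E.a → ℂ)
    (hμ : ∀ v : Fin n → ℂ, v ≠ 0 → ∀ f ∈ E.Hsec (-q) v, f ≠ 0 → μ ⬝ᵥ E.cf f 0 ≠ 0) :
    ∃ (F : Idx E.β (-q) → MvPolynomial (Fin n) ℂ) (e₁ : Fin E.a → ℂ),
      (∀ x, HomZ (F x) ((x.2 : ℕ) : ℤ)) ∧ (∀ v : Fin n → ℂ, v ≠ 0 → evv F v ∈ E.Hsec (-q) v) ∧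
      e₁ ≠ 0 ∧ ∀ v : Fin n → ℂ, v ≠ 0 → E.cf (evv F v) 0 = e₁ := by
  classical
  have hmem : ∀ {j : ℤ} v (g : Idx E.β j → ℂ), (evm (E.fam j) v).mulVec g = 0 ↔ g ∈ E.Hsec j v := by
    intro j v g
    simp [Hsec]
  have hrow : ∀ (b : ℕ) (x : Idx E.β (-p - 1)), E.row (-p - 1) b μ x ≠ 0 → ((x.2 : ℕ) : ℤ) = b := by
    intro b x hx
    by_contra h
    apply hx
    unfold row
    rw [if_neg]
    exact_mod_cast h
  -- the rows
  let N : Matrix (Fin w) (Idx E.β (-p - 1)) (MvPolynomial (Fin n) ℂ) :=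
    fun b x => C (E.row (-p - 1) b μ x)
  have hN : ∀ v (g : Idx E.β (-p - 1) → ℂ) (b : Fin w), (evm N v).mulVec g b = μ ⬝ᵥ E.cf g b := by
    intro v g b
    rw [← row_sum]
    unfold Matrix.mulVec
    unfold dotProduct
    apply Finset.sum_congr rfl
    intro x _
    have h5 : evm N v b x = E.row (-p - 1) b μ x := by
      change eval v (C (E.row (-p - 1) b μ x)) = _
      simp
    exact congrArg (· * g x) h5
  have hinj := gp_inj (fun y : Idx E.γ (-p - 1) => ((y.2 : ℕ) : ℤ))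
    (fun x : Idx E.β (-p - 1) => ((x.2 : ℕ) : ℤ)) (fun b : Fin w => ((b : ℕ) : ℤ))
    (E.fam (-p - 1)) (fun y x => E.fam_hom _ y x)
    (by
      intro v hv
      rw [Fintype.card_fin]
      exact h2 v hv)
    N (by
      intro b x
      by_cases h : E.row (-p - 1) b μ x = 0
      · change HomZ (C (E.row (-p - 1) b μ x)) _
        rw [h]
        exact Or.inl (map_zero _)
      · change HomZ (C (E.row (-p - 1) b μ x)) _
        rw [hrow b x h, sub_self]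
        exact HomZ.tdConst _)
    {p' | ∃ f : Idx E.β (-q) → Idx E.γ (-q), p' = ((E.fam (-q)).submatrix f id).det}
    v₀ hv₀ (by
      rintro k t p' ⟨f, rfl⟩
      obtain ⟨d, hd⟩ := (HomZ.tdDet ((E.fam (-q)).submatrix f id)
          (fun c => (((f c).2 : ℕ) : ℤ)) (fun x => ((x.2 : ℕ) : ℤ))
          (fun a c => E.fam_hom _ _ _)).tdIsHom
      obtain ⟨f', hf', hf'0⟩ := hf₀ k
      rw [eval_smul_hom hd, td_eval_minor, td_minor_zero _ f' hf'0 ((hmem _ _).2 hf'), mul_zero])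
    (by
      intro v hv hS g hg hNg
      obtain ⟨f, hf0, hf⟩ := td_maxmin (evm (E.fam (-q)) v) (fun f => by
        rw [← td_eval_minor]; exact hS _ ⟨f, rfl⟩)
      rw [hmem] at hf hg
      have hμf := hμ v hv f hf hf0
      obtain ⟨h, hh, hw'⟩ := wedge E c₁ P hP hP0 hPw v hv (-q) (-p - 1) _ hf g hg
      have hh0 : h = 0 := HomZ.eq_zero_of_neg hh (by omega)
      refine inj_lemma E v (j' := -q - 1) f g hg ((μ ⬝ᵥ E.cf f 0)⁻¹ • μ) ?_ ?_ w (by omega)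
        (h1 v hv) ?_
      · rw [smul_dotProduct, smul_eq_mul, inv_mul_cancel₀ hμf]
      · intro z i k
        rw [hw' z i k, hh0]
        simp
      · intro b hb
        rw [smul_dotProduct, ← hN v g ⟨b, hb⟩, hNg]
        simp)
  obtain ⟨G, hG, hGM, hGμ⟩ := core_final hn (fun y : Idx E.γ (-p - 1) => ((y.2 : ℕ) : ℤ))
    (fun x : Idx E.β (-p - 1) => ((x.2 : ℕ) : ℤ)) (E.fam (-p - 1)) (fun y x => E.fam_hom _ y x)
    (by
      intro v hv
      exact h2 v hv)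
    (fun b => E.row (-p - 1) b μ)
    (fun b x hx => by exact_mod_cast hrow b x hx)
    (by
      intro v hv g hg hμg
      refine hinj v hv g hg ?_
      funext b
      rw [hN, ← row_sum]
      exact hμg b)
  -- the shifted family
  have hGm : ∀ v : Fin n → ℂ, evv G v ∈ E.Hsec (-p - 1) v := by
    intro v
    rw [← hmem]
    ext y
    have := congrArg (eval v) (congrFun hGM y)
    simp only [Matrix.mulVec, dotProduct, map_sum, map_mul, Pi.zero_apply, map_zero] at this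
    simpa [Matrix.mulVec, dotProduct, evm, evv] using this
  have hcf0 : ∀ (v : Fin n → ℂ), ∀ b < w - 1, E.cf (evv G v) b = 0 := by
    intro v b hb
    ext i
    by_cases hbi : b < (E.β i + (-p - 1) + 1).toNat
    · have h5 : E.cf (evv G v) b i = evv G v ⟨i, ⟨b, hbi⟩⟩ := dif_pos hbi
      rw [h5]
      have h6 : G ⟨i, ⟨b, hbi⟩⟩ = 0 := HomZ.eq_zero_of_neg (hG ⟨i, ⟨b, hbi⟩⟩) (by simp only; omega)
      simp [evv, h6]
    · exact dif_neg hbi
  have hconst : ∀ (v v' : Fin n → ℂ), E.cf (evv G v) (w - 1) = E.cf (evv G v') (w - 1) := by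
    intro v v'
    ext i
    by_cases hbi : w - 1 < (E.β i + (-p - 1) + 1).toNat
    · have h5 : ∀ v, E.cf (evv G v) (w - 1) i = evv G v ⟨i, ⟨w - 1, hbi⟩⟩ := fun v => dif_pos hbi
      rw [h5, h5]
      have h6 := hG ⟨i, ⟨w - 1, hbi⟩⟩
      have h7 : ((((⟨i, ⟨w - 1, hbi⟩⟩ : Idx E.β (-p - 1)).2 : ℕ) : ℤ) - (w - 1 : ℤ)) = 0 := by
        simp only
        omega
      rw [h7] at h6
      exact HomZ.eval_const h6 v v'
    · have h5 : ∀ v, E.cf (evv G v) (w - 1) i = 0 := fun v => dif_neg hbi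
      rw [h5, h5]
  let F : Idx E.β (-q) → MvPolynomial (Fin n) ℂ := fun x =>
    if h : (x.2 : ℕ) + (w - 1) < (E.β x.1 + (-p - 1) + 1).toNat then
      G ⟨x.1, ⟨(x.2 : ℕ) + (w - 1), h⟩⟩ else 0
  have hFev : ∀ v, evv F v = E.sh (evv G v) (w - 1) (-q) := by
    intro v
    ext x
    simp only [evv, F, sh, cf]
    split_ifs <;> simp
  refine ⟨F, E.cf (evv G fun _ => 1) (w - 1), ?_, ?_, ?_, ?_⟩
  · intro x
    simp only [F]
    split_ifs with h
    · have h6 := hG ⟨x.1, ⟨(x.2 : ℕ) + (w - 1), h⟩⟩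
      have h7 : ((((⟨x.1, ⟨(x.2 : ℕ) + (w - 1), h⟩⟩ : Idx E.β (-p - 1)).2 : ℕ) : ℤ) - (w - 1 : ℤ))
          = ((x.2 : ℕ) : ℤ) := by
        simp only
        omega
      rwa [h7] at h6
    · left; rfl
  · intro v _
    rw [hFev]
    exact sh_mem E v _ (hGm v) (w - 1) (by omega) (hcf0 v)
  · intro h0
    have h3 := congrArg (eval (fun _ => (1 : ℂ))) (hGμ ⟨w - 1, by omega⟩)
    have h4 : ∑ x, E.row (-p - 1) (w - 1) μ x * (evv G fun _ => 1) x = 1 := by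
      have h5 : eval (fun _ => (1 : ℂ)) (if ((⟨w - 1, by omega⟩ : Fin w) : ℕ) + 1 = w then
          (1 : MvPolynomial (Fin n) ℂ) else 0) = 1 := by
        rw [if_pos]
        · simp
        · simp only
          omega
      rw [h5] at h3
      simpa [map_sum, evv] using h3
    rw [row_sum, h0] at h4
    simp at h4
  · intro v _
    rw [hFev, cf_zero_sh E _ (w - 1) (by omega)]
    exact hconst v _



/-- Infinitely many lines of maximal type, directions omit a direction: at `[1:0:...:0]`. -/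
theorem pt_dir_e0 (hn : 2 ≤ n) (E : Bundle2 n) (q : ℤ)
    (hmax : ∀ v : Fin n → ℂ, v ≠ 0 → ∀ a b : ℤ,
      E.SplitsOn (Fin.cons 1 0) (Fin.cons 0 v) a b → a ≤ q ∧ b ≤ q)
    (v₀ : ℕ → Fin n → ℂ) (hv₀ : ∀ i j, i ≠ j → LinearIndependent ℂ ![v₀ i, v₀ j])
    (hf₀ : ∀ k, ∃ f ∈ E.Hsec (-q) (v₀ k), f ≠ 0) (μ : Fin E.a → ℂ)
    (hμ : ∀ v : Fin n → ℂ, v ≠ 0 → ∀ f ∈ E.Hsec (-q) v, f ≠ 0 → μ ⬝ᵥ E.cf f 0 ≠ 0) :
    E.Splits := by
  classical
  obtain ⟨c₁, P, hP, hP0, hPw⟩ := plucker (by omega : 2 ≤ n + 1) E.β E.γ E.B E.hom E.rank_two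
  have hli : ∀ v : Fin n → ℂ, v ≠ 0 →
      LinearIndependent ℂ ![(Fin.cons 1 0 : Fin (n + 1) → ℂ), Fin.cons 0 v] := by
    intro v hv
    rw [LinearIndependent.pair_iff]
    intro s t hst
    have h2 := congrFun hst 0
    have h3 : s = 0 := by simpa using h2
    refine ⟨h3, ?_⟩
    by_contra ht
    apply hv
    ext i
    have h4 := congrFun hst i.succ
    have h5 : t * v i = 0 := by simpa [h3] using h4
    rcases mul_eq_zero.mp h5 with h | h
    · exact absurd h ht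
    · exact h
  have hall : ∀ v : Fin n → ℂ, v ≠ 0 → ∃ a b : ℤ, b ≤ a ∧ a ≤ q ∧ a + b = c₁ ∧
      E.SplitsOn (Fin.cons 1 0) (Fin.cons 0 v) a b ∧
      ∀ j : ℤ, Module.finrank ℂ (E.Hsec j v) = (a + j + 1).toNat + (b + j + 1).toNat := by
    intro v hv
    obtain ⟨a, b, hs⟩ := Pool.Agent.H106R3.VB.splitsOn_exists E (hli v hv)
    have hsum := splitsOn_sum E c₁ P hP hP0 hPw v hv a b hs
    have hfr := finrank_Hsec E v hv a b hs
    have hle := hmax v hv a b hs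
    rcases le_total b a with h | h
    · exact ⟨a, b, h, hle.1, hsum, hs, hfr⟩
    · exact ⟨b, a, h, hle.2, by omega, Y208PT.SplitsOn.swap hs, fun j => by rw [hfr j]; ring⟩
  have hv00 : ∀ k, v₀ k ≠ 0 := fun k => (hv₀ k (k + 1) (by omega)).ne_zero 0
  have hbot : ∀ v : Fin n → ℂ, v ≠ 0 → E.Hsec (-q - 1) v = ⊥ := by
    intro v hv
    obtain ⟨a, b, h1, h2, h3, -, h4⟩ := hall v hv
    have := h4 (-q - 1)
    rw [← Submodule.finrank_eq_zero (R := ℂ), this]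
    omega
  -- the first line
  have hq : 2 * q = c₁ + (2 * q - c₁).toNat := by
    obtain ⟨a, b, h1, h2, h3, -, h4⟩ := hall (v₀ 0) (hv00 0)
    obtain ⟨f, hf, hf0⟩ := hf₀ 0
    have h5 : 0 < Module.finrank ℂ (E.Hsec (-q) (v₀ 0)) := by
      rw [Module.finrank_pos_iff_exists_ne_zero]
      refine ⟨⟨f, hf⟩, ?_⟩
      intro h6
      exact hf0 (congrArg Subtype.val h6)
    rw [h4] at h5
    omega
  obtain ⟨w, hw⟩ : ∃ w : ℕ, (w : ℤ) = 2 * q - c₁ := ⟨(2 * q - c₁).toNat, by omega⟩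
  rcases Nat.eq_zero_or_pos w with hw0 | hw0
  · apply main_e0 hn
    intro v hv
    obtain ⟨a, b, h1, h2, h3, hs, h4⟩ := hall v hv
    refine ⟨a, b, ?_, hs⟩
    have : a - b = 0 := by omega
    rw [this, abs_zero]
    omega
  · have hfr1 : ∀ v : Fin n → ℂ, v ≠ 0 → Module.finrank ℂ (E.Hsec (-(c₁ - q) - 1) v) = w := by
      intro v hv
      obtain ⟨a, b, h1, h2, h3, -, h4⟩ := hall v hv
      rw [h4]
      omega
    have hfr2 : ∀ v : Fin n → ℂ, v ≠ 0 → Module.finrank ℂ (E.Hsec (-(c₁ - q)) v) = w + 2 := by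
      intro v hv
      obtain ⟨a, b, h1, h2, h3, -, h4⟩ := hall v hv
      rw [h4]
      omega
    obtain ⟨F, e₁, hF, hFm, he₁, hFe⟩ := family_dir hn E c₁ P hP hP0 hPw q (c₁ - q) w
      (by omega) (by omega) hw0 hbot hfr1 v₀ hv₀ hf₀ μ hμ
    exact splits_of_family hn E c₁ P hP hP0 hPw q (c₁ - q) w (by omega) (by omega) hbot hfr2 F hF
      hFm e₁ he₁ hFe

end H932V
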