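import Pool.Agent.H932.V.Dir

/-!
# Lines of maximal type through a point of a linear subspace, whose directions omit a direction
-/

open MvPolynomial H960VB H960VB.Bundle2 Y208PT

namespace H932V

variable {m n : ℕ}

/-- a nonzero section on a line from a nonzero coefficient array -/
theorem lineSec_of_Hsec (E : Bundle2 n) (v : Fin n → ℂ) (q : ℤ) (f : Idx E.β (-q) → ℂ)
    (hf : f ∈ E.Hsec (-q) v) : LineSec E (Fin.cons 1 0) (Fin.cons 0 v) q (L2.gp E f) ∧
      evv (L2.gp E f) ![1, 0] = E.cf f 0 ∧ (f ≠ 0 → L2.gp E f ≠ 0) := by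
  refine ⟨⟨fun i => L2.HomZ_cast (L2.homZ_gp E f i) (by ring), fun z _ => ?_⟩, ?_, ?_⟩
  · rw [L2.evv_gp, L2.line_pt]
    exact (mem_Hsec E (-q) v f).1 hf z
  · ext i
    rw [L2.evv_gp, lev_at_zero E f _ (by simp)]
    simp
  · intro hf0 h0
    apply hf0
    funext ⟨i, b⟩
    have h1 : L2.toPoly (E.β i + -q) (fun b => f ⟨i, b⟩) = 0 := congrFun h0 i
    have h2 := L2.toPoly_injective _ (h1.trans (map_zero _).symm)
    exact congrFun h2 b

/-- **Directions of lines of maximal type, at a point of a linear subspace.**  If infinitely many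
lines through `P` in `Λ` have the maximal type `q`, and if none of the lines of type `q` has the
direction `ε`, then `E` splits. -/
theorem pt_dir_subspace (E : Bundle2 n) (Λ : Submodule ℂ (Fin (n + 1) → ℂ))
    (hΛ : 3 ≤ Module.finrank ℂ Λ) (P : Fin (n + 1) → ℂ) (hPΛ : P ∈ Λ) (hP : P ≠ 0) (q : ℤ)
    (hmax : ∀ Q ∈ Λ, LinearIndependent ℂ ![P, Q] → ∀ a b : ℤ, E.SplitsOn P Q a b → a ≤ q ∧ b ≤ q)
    (Q : ℕ → Fin (n + 1) → ℂ) (hQΛ : ∀ k, Q k ∈ Λ)
    (hQ : ∀ i j, i ≠ j → LinearIndependent ℂ ![P, Q i, Q j])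
    (hg : ∀ k, ∃ g : Fin E.a → MvPolynomial (Fin 2) ℂ, g ≠ 0 ∧ LineSec E P (Q k) q g)
    (ε : Fin E.a → ℂ) (hε : ε ∈ E.fib P) (hε0 : ε ≠ 0)
    (hdir : ∀ Q ∈ Λ, LinearIndependent ℂ ![P, Q] → ∀ g : Fin E.a → MvPolynomial (Fin 2) ℂ,
      g ≠ 0 → LineSec E P Q q g → ∀ c : ℂ, evv g ![1, 0] ≠ c • ε) : E.Splits := by
  obtain ⟨m, hm, T, hT, hTΛ, hTP⟩ := exists_param Λ P hPΛ hP
  have hmn : m + 1 ≤ n + 1 := by
    have := Submodule.finrank_le Λ
    rw [hm] at this
    simpa using this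
  have hTm : ∀ x, T x ∈ Λ := fun x => hTΛ ▸ LinearMap.mem_range_self T x
  refine splits_of_pull (n - m) m n (by omega) (by omega) E T hT ?_
  have hex : ∀ k, ∃ x, T x = Q k := by
    intro k
    have := hQΛ k
    rw [← hTΛ] at this
    exact this
  choose x hx using hex
  have hxd : ∀ k, Q k = x k 0 • P + T (Fin.cons 0 (Fin.tail (x k))) := by
    intro k
    rw [← hx k, ← hTP, ← param_decomp]
  have hf : ∀ k, ∃ f ∈ (E.pull T hT).Hsec (-q) (Fin.tail (x k)), f ≠ 0 := by
    intro k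
    obtain ⟨g, hg0, hg⟩ := hg k
    have h := hg.shear (x k 0) (hxd k)
    rw [← hTP] at h
    obtain ⟨f, h1, h2, -⟩ := exists_Hsec (E.pull T hT) (Fin.tail (x k)) q _
      ((lineSec_pull E T hT _ _ q _).2 h)
    refine ⟨f, h1, ?_⟩
    rintro rfl
    apply hg0
    funext i
    apply MvPolynomial.funext
    intro z
    have h3 := congrFun (h2 ![z 0 + x k 0 * z 1, z 1]) i
    have h4 := congrFun (evv_lsub_shear (x k 0) g ![z 0 + x k 0 * z 1, z 1]) i
    have h5 : (![(![z 0 + x k 0 * z 1, z 1] : Fin 2 → ℂ) 0 -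
        x k 0 * (![z 0 + x k 0 * z 1, z 1] : Fin 2 → ℂ) 1,
        (![z 0 + x k 0 * z 1, z 1] : Fin 2 → ℂ) 1] : Fin 2 → ℂ) = z := by
      ext i
      fin_cases i
      · simp
      · simp
    rw [h5] at h4
    have h6 : (0 : ℂ) = evv g z i := by
      rw [← h4]
      refine Eq.trans ?_ h3
      simp [lev]
    simpa [evv] using h6.symm
  -- a functional which vanishes on `ε`
  obtain ⟨ε', hε'⟩ : ∃ ε' : Fin (E.pull T hT).a → ℂ, ε' = ε := ⟨ε, rfl⟩
  have hεp : ε' ∈ (E.pull T hT).fib (Fin.cons 1 0) := by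
    rw [fib_pull, hTP, hε']
    exact hε
  have hε0' : ε' ≠ 0 := by
    rw [hε']
    exact hε0
  obtain ⟨e', μ, lam, he', hμ1, hμ2, hl1, hl2, hdual⟩ := exists_dual (E.pull T hT) ε' hεp hε0'
  have hli : ∀ v : Fin m → ℂ, v ≠ 0 → LinearIndependent ℂ ![P, T (Fin.cons 0 v)] := by
    intro v hv
    rw [LinearIndependent.pair_iff]
    intro s t hst
    rw [← hTP, ← map_smul, ← map_smul, ← map_add] at hst
    have h2 := hT (hst.trans (map_zero T).symm)
    have h3 : s = 0 := by
      have := congrFun h2 0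
      simpa using this
    refine ⟨h3, ?_⟩
    by_contra ht
    apply hv
    ext i
    have h4 := congrFun h2 i.succ
    have h5 : t * v i = 0 := by simpa [h3] using h4
    rcases mul_eq_zero.mp h5 with h | h
    · exact absurd h ht
    · exact h
  refine pt_dir_e0 (by omega) (E.pull T hT) q ?_ (fun k => Fin.tail (x k)) ?_ hf lam ?_
  · intro v hv a b hs
    have h1 := splitsOn_of_pull E T hT _ _ a b hs
    rw [hTP] at h1
    exact hmax _ (hTm _) (hli v hv) a b h1
  · intro i j hij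
    rw [LinearIndependent.pair_iff]
    intro s t hst
    have h1 := hQ i j hij
    rw [Fintype.linearIndependent_iff] at h1
    have h2 : T (Fin.cons 0 (s • Fin.tail (x i) + t • Fin.tail (x j))) = 0 := by
      have : (Fin.cons 0 (s • Fin.tail (x i) + t • Fin.tail (x j)) : Fin (m + 1) → ℂ) = 0 := by
        rw [hst]
        ext i
        refine Fin.cases ?_ (fun i => ?_) i <;> simp
      rw [this, map_zero]
    have h3 : (Fin.cons 0 (s • Fin.tail (x i) + t • Fin.tail (x j)) : Fin (m + 1) → ℂ) =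
        s • (Fin.cons 0 (Fin.tail (x i)) : Fin (m + 1) → ℂ) +
          t • (Fin.cons 0 (Fin.tail (x j)) : Fin (m + 1) → ℂ) := by
      ext i
      refine Fin.cases ?_ (fun i => ?_) i <;> simp
    rw [h3, map_add, map_smul, map_smul] at h2
    have h4 := h1 ![-(s * x i 0 + t * x j 0), s, t] (by
      rw [Fin.sum_univ_three]
      simp only [Matrix.cons_val_zero, Matrix.cons_val_one, Matrix.cons_val_two,
        Matrix.head_cons, Matrix.tail_cons]
      rw [hxd i, hxd j]
      have h5 : s • T (Fin.cons 0 (Fin.tail (x i))) + t • T (Fin.cons 0 (Fin.tail (x j))) = 0 := h2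
      calc -(s * x i 0 + t * x j 0) • P + s • (x i 0 • P + T (Fin.cons 0 (Fin.tail (x i)))) +
            t • (x j 0 • P + T (Fin.cons 0 (Fin.tail (x j))))
          = s • T (Fin.cons 0 (Fin.tail (x i))) + t • T (Fin.cons 0 (Fin.tail (x j))) := by
            module
        _ = 0 := h5)
    exact ⟨by simpa using h4 1, by simpa using h4 2⟩
  · intro v hv f hf hf0 h0
    obtain ⟨h1, h2, h3⟩ := lineSec_of_Hsec (E.pull T hT) v q f hf
    have h4 := (lineSec_pull E T hT _ _ q _).1 h1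
    rw [hTP] at h4
    refine hdir _ (hTm _) (hli v hv) _ (h3 hf0) h4 (μ ⬝ᵥ (E.pull T hT).cf f 0) ?_
    -- the value at `P` is a multiple of `ε`
    refine Eq.trans h2 ?_
    have h5 : (E.pull T hT).cf f 0 ∈ (E.pull T hT).fib (Fin.cons 1 0) := cf_zero_mem _ v f hf
    have h6 := hdual ((E.pull T hT).cf f 0 - (μ ⬝ᵥ (E.pull T hT).cf f 0) • ε')
      (Submodule.sub_mem _ h5 (Submodule.smul_mem _ _ hεp))
      (by rw [dotProduct_sub, dotProduct_smul, hμ1, smul_eq_mul, mul_one, sub_self])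
      (by rw [dotProduct_sub, dotProduct_smul, hl1, h0, smul_zero, sub_zero])
    rw [← hε']
    exact sub_eq_zero.1 h6

end H932V
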