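import Pool.Graph.R_pool_sql_team_seeded_1acbe0a2.Y208.PT.Cone
import Pool.Graph.R_seed8.H960R2.VB.TaskD

/-!
# The general position lemma: a homogeneous family of square linear systems over a projective space,
which is invertible along a cone with infinitely many lines, is invertible everywhere
-/

open MvPolynomial H960VB Y208PT

namespace H932V

variable {n : ℕ} {Y I R : Type}

/-- the stacked matrix -/
noncomputable def gpStack (M : Matrix Y I (MvPolynomial (Fin n) ℂ))
    (N : Matrix R I (MvPolynomial (Fin n) ℂ)) : Matrix (Y ⊕ R) I (MvPolynomial (Fin n) ℂ) :=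
  Matrix.fromRows M N

theorem gpStack_hom (dY : Y → ℤ) (dI : I → ℤ) (dR : R → ℤ)
    (M : Matrix Y I (MvPolynomial (Fin n) ℂ)) (hM : ∀ y i, HomZ (M y i) (dY y - dI i))
    (N : Matrix R I (MvPolynomial (Fin n) ℂ)) (hN : ∀ r i, HomZ (N r i) (dR r - dI i))
    (r : Y ⊕ R) (i : I) :
    HomZ (gpStack M N r i) (Sum.elim dY dR r - dI i) := by
  rcases r with y | b
  · exact hM y i
  · exact hN b i

theorem evm_gpStack [Fintype I] (M : Matrix Y I (MvPolynomial (Fin n) ℂ))
    (N : Matrix R I (MvPolynomial (Fin n) ℂ)) (v : Fin n → ℂ) (u : I → ℂ) :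
    (evm (gpStack M N) v).mulVec u = Sum.elim ((evm M v).mulVec u) ((evm N v).mulVec u) := by
  funext r
  rcases r with y | z
  · simp [evm, gpStack, Matrix.mulVec, dotProduct]
  · simp [evm, gpStack, Matrix.mulVec, dotProduct]

variable [Fintype Y] [Fintype I] [Fintype R]

/-- the common zeros of the minors of the stacked matrix are, near `v₁`, given by one equation -/
theorem gp_local (dY : Y → ℤ) (dI : I → ℤ) (dR : R → ℤ)
    (M : Matrix Y I (MvPolynomial (Fin n) ℂ)) (hM : ∀ y i, HomZ (M y i) (dY y - dI i))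
    (hker : ∀ v : Fin n → ℂ, v ≠ 0 →
      Module.finrank ℂ (LinearMap.ker (Matrix.mulVecLin (evm M v))) = Fintype.card R)
    (N : Matrix R I (MvPolynomial (Fin n) ℂ)) (hN : ∀ r i, HomZ (N r i) (dR r - dI i))
    (v₁ : Fin n → ℂ) (hv₁ : v₁ ≠ 0) :
    ∃ δ h : MvPolynomial (Fin n) ℂ, eval v₁ δ ≠ 0 ∧ (∃ d, h.IsHomogeneous d) ∧
      (∀ v, eval v δ ≠ 0 → eval v h = 0 →
        ∃ g : I → ℂ, g ≠ 0 ∧ (evm M v).mulVec g = 0 ∧ (evm N v).mulVec g = 0) ∧
      ∀ v, (∃ g : I → ℂ, g ≠ 0 ∧ (evm M v).mulVec g = 0 ∧ (evm N v).mulVec g = 0) →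
        eval v h = 0 := by
  classical
  obtain ⟨R', W', e', hR', hW', hdet'⟩ := td_local_rows (evm M v₁) (1 : Matrix I I ℂ)
    (Fintype.card R) (hker v₁ hv₁) (fun g _ h => by rwa [Matrix.one_mulVec] at h)
  obtain ⟨i₁, hi₁⟩ : ∃ i, v₁ i ≠ 0 := Function.ne_iff.mp hv₁
  let TT : Matrix I I (MvPolynomial (Fin n) ℂ) :=
    Matrix.of fun i => Sum.elim (fun r : R' => M r)
      (fun z : W' => fun j => C ((1 : Matrix I I ℂ) z j)) (e' i)
  have hTT : ∀ (v : Fin n → ℂ),
      eval v TT.det = (Matrix.of fun i => Sum.elim (fun r : R' => evm M v r)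
        (fun z : W' => (1 : Matrix I I ℂ) z) (e' i)).det := by
    intro v
    rw [RingHom.map_det]
    congr 1
    ext i j
    simp only [TT, RingHom.mapMatrix_apply, Matrix.map_apply, Matrix.of_apply]
    rcases e' i with r | z
    · rfl
    · simp
  have hcardW' : Fintype.card W' = Fintype.card R := by rw [Fintype.card_coe, hW']
  let σ : W' ≃ R := Fintype.equivOfCardEq hcardW'
  let f₂ : I → Y ⊕ R := fun i => Sum.map (fun r : R' => r.1) σ (e' i)
  refine ⟨TT.det * X i₁, ((gpStack M N).submatrix f₂ id).det, ?_, ?_, ?_, ?_⟩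
  · rw [map_mul, eval_X, hTT]
    exact mul_ne_zero hdet' hi₁
  · exact (HomZ.tdDet ((gpStack M N).submatrix f₂ id)
      (fun c => Sum.elim dY dR (f₂ c)) dI
      (fun a c => gpStack_hom dY dI dR M hM N hN _ _)).tdIsHom
  · intro v hδ h0
    rw [map_mul, eval_X, hTT] at hδ
    have hdv := left_ne_zero_of_mul hδ
    have hvi := right_ne_zero_of_mul hδ
    have hv : v ≠ 0 := fun h => hvi (by rw [h]; rfl)
    rw [td_eval_minor, ← Matrix.exists_mulVec_eq_zero_iff] at h0
    obtain ⟨g, hg0, hg⟩ := h0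
    have hg' : ∀ i, (evm (gpStack M N) v).mulVec g (f₂ i) = 0 := fun i => congrFun hg i
    rw [evm_gpStack] at hg'
    have hMg : (evm M v).mulVec g = 0 := by
      refine td_ker_rows (evm M v) (1 : Matrix I I ℂ) (Fintype.card R) (hker v hv) R' W' e' hR'
        hdv g ?_
      intro r hr
      have := hg' (e'.symm (Sum.inl ⟨r, hr⟩))
      simp only [f₂, Equiv.apply_symm_apply, Sum.map_inl, Sum.elim_inl] at this
      exact this
    refine ⟨g, hg0, hMg, ?_⟩
    funext b
    have := hg' (e'.symm (Sum.inr (σ.symm b)))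
    simp only [f₂, Equiv.apply_symm_apply, Sum.map_inr, Sum.elim_inr] at this
    exact this
  · rintro v ⟨g, hg0, hMg, hμg⟩
    rw [td_eval_minor]
    refine td_minor_zero _ g hg0 ?_ _
    rw [evm_gpStack]
    funext r
    rcases r with y | b
    · exact congrFun hMg y
    · exact congrFun hμg b

/-- **General position lemma.**  Injectivity along a cone with infinitely many lines implies
injectivity everywhere. -/
theorem gp_inj (dY : Y → ℤ) (dI : I → ℤ) (dR : R → ℤ)
    (M : Matrix Y I (MvPolynomial (Fin n) ℂ)) (hM : ∀ y i, HomZ (M y i) (dY y - dI i))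
    (hker : ∀ v : Fin n → ℂ, v ≠ 0 →
      Module.finrank ℂ (LinearMap.ker (Matrix.mulVecLin (evm M v))) = Fintype.card R)
    (N : Matrix R I (MvPolynomial (Fin n) ℂ)) (hN : ∀ r i, HomZ (N r i) (dR r - dI i))
    (S : Set (MvPolynomial (Fin n) ℂ)) (v₀ : ℕ → Fin n → ℂ)
    (hv₀ : ∀ i j, i ≠ j → LinearIndependent ℂ ![v₀ i, v₀ j])
    (hS : ∀ k (t : ℂ), ∀ p ∈ S, eval (t • v₀ k) p = 0)
    (hinj : ∀ v : Fin n → ℂ, v ≠ 0 → (∀ p ∈ S, eval v p = 0) → ∀ g : I → ℂ,
      (evm M v).mulVec g = 0 → (evm N v).mulVec g = 0 → g = 0) :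
    ∀ v : Fin n → ℂ, v ≠ 0 → ∀ g : I → ℂ, (evm M v).mulVec g = 0 → (evm N v).mulVec g = 0 →
      g = 0 := by
  classical
  by_contra hcon
  push Not at hcon
  obtain ⟨v₁, hv₁, g₁, hMg₁, hNg₁, hg₁⟩ := hcon
  obtain ⟨δ, h, hδ, hh, hl, hz⟩ := gp_local dY dI dR M hM hker N hN v₁ hv₁
  obtain ⟨v, hv, hS1, hS2⟩ := cone_inf S
    {p | ∃ f : I → Y ⊕ R, p = ((gpStack M N).submatrix f id).det}
    v₀ hv₀ hS v₁ δ h hδ hh (hz v₁ ⟨g₁, hg₁, hMg₁, hNg₁⟩) (by
      rintro x hx1 hx2 p ⟨f, rfl⟩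
      obtain ⟨g, hg0, hMg, hNg⟩ := hl x hx1 hx2
      rw [td_eval_minor]
      refine td_minor_zero _ g hg0 ?_ _
      rw [evm_gpStack]
      funext r
      rcases r with y | b
      · exact congrFun hMg y
      · exact congrFun hNg b)
  obtain ⟨g', hg'0, hg'⟩ := td_maxmin (evm (gpStack M N) v) (fun f => by
    rw [← td_eval_minor]; exact hS2 _ ⟨f, rfl⟩)
  rw [evm_gpStack] at hg'
  apply hg'0
  refine hinj v hv hS1 g' ?_ ?_
  · funext y
    exact congrFun hg' (Sum.inl y)
  · funext b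
    exact congrFun hg' (Sum.inr b)

/-- the global solutions -/
theorem gp_glob (hn : 2 ≤ n) (dY : Y → ℤ) (dI : I → ℤ) (dR : R → ℤ)
    (M : Matrix Y I (MvPolynomial (Fin n) ℂ)) (hM : ∀ y i, HomZ (M y i) (dY y - dI i))
    (hker : ∀ v : Fin n → ℂ, v ≠ 0 →
      Module.finrank ℂ (LinearMap.ker (Matrix.mulVecLin (evm M v))) = Fintype.card R)
    (N : Matrix R I (MvPolynomial (Fin n) ℂ)) (hN : ∀ r i, HomZ (N r i) (dR r - dI i))
    (hinj : ∀ v : Fin n → ℂ, v ≠ 0 → ∀ g : I → ℂ,
      (evm M v).mulVec g = 0 → (evm N v).mulVec g = 0 → g = 0)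
    [DecidableEq R] (r₀ : R) :
    ∃ G : I → MvPolynomial (Fin n) ℂ, (∀ i, HomZ (G i) (dI i - dR r₀)) ∧
      M.mulVec G = 0 ∧ N.mulVec G = Pi.single r₀ 1 := by
  classical
  have hinj' : ∀ v : Fin n → ℂ, v ≠ 0 → ∀ g : I → ℂ,
      (evm (gpStack M N) v).mulVec g = 0 → g = 0 := by
    intro v hv g hg
    rw [evm_gpStack] at hg
    exact hinj v hv g (funext fun y => congrFun hg (Sum.inl y))
      (funext fun b => congrFun hg (Sum.inr b))
  let r : Y ⊕ R → MvPolynomial (Fin n) ℂ :=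
    Sum.elim 0 (Pi.single r₀ 1)
  have hsol : ∀ v : Fin n → ℂ, v ≠ 0 → ∃ g : I → ℂ, (evm (gpStack M N) v).mulVec g = evv r v := by
    intro v hv
    let Φ : LinearMap.ker (Matrix.mulVecLin (evm M v)) →ₗ[ℂ] (R → ℂ) :=
      (Matrix.mulVecLin (evm N v)).comp (Submodule.subtype _)
    have hΦi : Function.Injective Φ := by
      rw [← LinearMap.ker_eq_bot, LinearMap.ker_eq_bot']
      rintro ⟨g, hg⟩ hg2
      have : g = 0 := hinj v hv g hg hg2
      exact Subtype.ext this
    have hΦs : Function.Surjective Φ := by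
      rw [← LinearMap.injective_iff_surjective_of_finrank_eq_finrank]
      · exact hΦi
      · rw [hker v hv]; simp
    obtain ⟨⟨g, hg⟩, hg2⟩ := hΦs (Pi.single r₀ 1)
    refine ⟨g, ?_⟩
    rw [evm_gpStack]
    funext c
    rcases c with y | b
    · have : (evm M v).mulVec g = 0 := hg
      simp [evv, r, this]
    · have := congrFun hg2 b
      simp only [evv, r, Sum.elim_inr]
      rw [Pi.single_apply, apply_ite (eval v), map_one, map_zero]
      rw [Pi.single_apply] at this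
      exact this
  obtain ⟨G, hG⟩ := hartogs (by omega) (gpStack M N) r hinj' hsol
  have hGh := hartogs_hom (by omega) (gpStack M N) r (Sum.elim dY dR) dI
    (dR r₀) (gpStack_hom dY dI dR M hM N hN) (by
      intro c
      rcases c with y | b
      · exact Or.inl rfl
      · simp only [r, Sum.elim_inr]
        by_cases h : b = r₀
        · subst h
          rw [Pi.single_eq_same, sub_self]
          simpa using HomZ.tdConst (σ := Fin n) 1
        · rw [Pi.single_eq_of_ne h]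
          exact Or.inl rfl) hinj' G hG
  refine ⟨G, hGh, ?_, ?_⟩
  · funext y
    have := congrFun hG (Sum.inl y)
    exact this
  · funext b
    have := congrFun hG (Sum.inr b)
    exact this

end H932V
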